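import Pool.Agent.Run7.h177.LG.Semi

/-!
# Rational points and entire curves in manifolds with symmetric differentials without common zeros

`X = {F = 0}` is a projective variety over a number field `k`, and `σ : k → ℂ` an embedding, such that
`X_σ` is a complex submanifold of dimension `d` of projective space (`ProjManifold`,
`Pool/Agent/N155/B/Defs.lean`). There are symmetric differentials `ω_a` of degree `r > 0` on `X_σ`,
sections of `Sym^r Ω`, without common zeros (`SymDiff`, `NoCommonZero`): at each nonzero tangent vector
some `ω_a` is not zero. `PositiveTwoForms`: outside of the closed subset `{G = 0}` certain sections `η`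
of `Sym^ν (Λ² Ω) ⊗ O(-1)` have no common zeros in the linearly independent pairs of tangent vectors; if
`Λ² Ω` is ample one can take `{G = 0}` empty, and if `X_σ` is a surface of general type `{G = 0}` is a
curve. `HolIn`: holomorphic maps from the complex plane to `X_σ`; `InCurve` (`Pool/Agent/Run7/h177/LG/Crv.lean`): the image is
contained in an algebraic curve.

Let `Z = {Q = 0}` be a closed subset defined over `k` such that for all number fields `L ⊇ k` all but
finitely many points of `X(L)` are on `Z`. It is assumed that all nonconstant entire curves in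
`X_σ ∩ {G = 0}` lie in algebraic curves, but not in `Z_σ`. For instance this is the case if `{G = 0}` is
empty, or if `{G = 0}` has dimension at most one and `Z` is empty.

Theorem. Every nonconstant entire curve in `X_σ` lies in `Z_σ`. In particular (`Z` empty), if `X(L)` is
finite for all number fields `L`, then `X_σ` is hyperbolic: every entire curve is constant.
-/

set_option autoImplicit false

open LinearAlgebra.Projectivization

namespace Pool.Agent.Results.MP_f82ddf_nt.SymmetricDifferentialManifolds

open Pool.Agent.W602.GT Pool.Agent.N155.BB Pool.Agent.N155.QD Run7.h177.LG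
open Pool.Agent.Q103.AR (Points)

/-- **Rational points and entire curves in manifolds with symmetric differentials without common
zeros.** -/
theorem result {k : Type} [Field k] [NumberField k] (σ : k →+* ℂ) {n : ℕ} {ι ι' κ : Type}
    (F : ι → MvPolynomial (Fin (n + 1)) k) (d : ℕ)
    (hX : ProjManifold (fun e => MvPolynomial.map σ (F e)) d)
    (G : ι' → MvPolynomial (Fin (n + 1)) ℂ) (hG : ∀ i, IsForm (G i)) {κ' : Type}
    (η : κ' → (Fin (n + 1) → ℂ) → (Fin (n + 1) → ℂ) → (Fin (n + 1) → ℂ) → ℂ)
    (hη : PositiveTwoForms (Cone (fun e => MvPolynomial.map σ (F e))) (Cone G) d η) (r : ℕ)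
    {τ : Type} [Fintype τ] [Nonempty τ]
    (ω : τ → (Fin (n + 1) → ℂ) → (Fin (n + 1) → ℂ) → ℂ) (hr : 0 < r)
    (hω : ∀ a, SymDiff (Cone (fun e => MvPolynomial.map σ (F e))) d r (ω a))
    (hn : NoCommonZero (Cone (fun e => MvPolynomial.map σ (F e))) d ω)
    (Q : κ → MvPolynomial (Fin (n + 1)) k) (hQ : ∀ j, IsForm (Q j))
    (hS : ∀ h, HolIn (fun e => MvPolynomial.map σ (F e)) h → (∀ z, (h z).rep ∈ Cone G) →
      (∀ z w, h z = h w) ∨ (InCurve h ∧ ∃ j z, val (h z).rep (MvPolynomial.map σ (Q j)) ≠ 0))
    (hfin : ∀ (L : Type) [Field L] [NumberField L] [Algebra k L],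
      (Points F L \ Points Q L).Finite) :
    (∀ f, HolIn (fun e => MvPolynomial.map σ (F e)) f → (∀ z w, f z = f w) ∨
      ∀ j z, val (f z).rep (MvPolynomial.map σ (Q j)) = 0) ∧
    ((∀ (L : Type) [Field L] [NumberField L] [Algebra k L], (Points F L).Finite) →
      ∀ f, HolIn (fun e => MvPolynomial.map σ (F e)) f → ∀ z w, f z = f w) := by
  have hF : ∀ e, IsForm (F e) := fun e => isForm_of_map σ (hX.form e)
  have hZ := noBC_of_points σ F hF G Q hQ hS hfin
  refine ⟨main_semi σ F d hX G hG hZ η hη r ω hr hω hn Q hQ hfin, fun hfin' f hf => ?_⟩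
  rcases main_semi σ F d hX G hG hZ η hη r ω hr hω hn (κ := Unit) (fun _ => 1)
    (fun _ => ⟨0, MvPolynomial.isHomogeneous_one _ _⟩)
    (fun L _ _ _ => (hfin' L).subset Set.sdiff_subset) f hf with h | h1
  · exact h
  · exfalso
    have h2 := h1 () 0
    rw [map_one] at h2
    unfold Pool.Agent.W602.GT.val at h2
    rw [map_one] at h2
    exact one_ne_zero h2

end Pool.Agent.Results.MP_f82ddf_nt.SymmetricDifferentialManifolds
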